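import Mathlib

/-!
# Verdier good morphisms of exact triangles are not invariant under rotation

Let `R` be an object of a triangulated category and `n` an integer with `n² • 𝟙 R = 0` and
`n • 𝟙 R ≠ 0` (for instance `ℤ/4` in degree `0` and `n = 2`), put `e = n • 𝟙 R` and let
`R → R → Z → ΣR` be an exact triangle `(e, v, w)`. Its sum with the contractible triangle
`R → R → 0 → ΣR` is an exact triangle `R² → R² → Z → ΣR²`. The map `(f, g, 0)` of this triangle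
to itself, with `f (x₁, x₂) = (x₂, e x₁)` and `g (y, x) = (e y + e x, y)`, is Verdier good: the
cone of `R² → R² → R²` is `Z²`, both octahedra split, and the zero map `Z → Z` is the composite
of the inclusion `Z → Z²` of one summand and the projection `Z² → Z` to the other one.

If the rotation `(g, 0, Σf)` were Verdier good, then the commutative square formed by `f` and `g`
would have a lift `b : R² → R²` (lemma `lift_of_rotate`), and its upper left entry would be an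
endomorphism `b'` of `R` with `b' e = 0` and `e b' = e`. As `e` is central this gives `e = 0`.
-/

set_option autoImplicit false
set_option backward.isDefEq.respectTransparency false
set_option backward.defeqAttrib.useBackward true

open CategoryTheory CategoryTheory.Limits CategoryTheory.Pretriangulated

namespace Pool.Agent.Results.MP_76bba9_al.NotRotationInvariant

universe v u

section defs

variable {C : Type u} [Category.{v} C] [Preadditive C] [HasZeroObject C] [HasShift C ℤ]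
  [∀ n : ℤ, (shiftFunctor C n).Additive] [Pretriangulated C]

/-- The three auxiliary exact triangles which are fixed in the definition of a Verdier good map
`φ = (f, g, h)` from `X → Y → Z → ΣX` to `X' → Y' → Z' → ΣX'`: an exact triangle on
`X → Y → Y'`, one on `g : Y → Y'` and one on `f : X → X'`. -/
structure Cones {T T' : Triangle C} (φ : T ⟶ T') where
  /-- the cone of `X → Y → Y'` -/
  A : C
  /-- the cone of `g` -/
  Yc : C
  /-- the cone of `f` -/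
  Xc : C
  /-- `Y' → A` -/
  vA : T'.obj₂ ⟶ A
  /-- `A → ΣX` -/
  wA : A ⟶ T.obj₁⟦(1 : ℤ)⟧
  /-- `Y' → Y''` -/
  g' : T'.obj₂ ⟶ Yc
  /-- `Y'' → ΣY` -/
  g'' : Yc ⟶ T.obj₂⟦(1 : ℤ)⟧
  /-- `X' → X''` -/
  f' : T'.obj₁ ⟶ Xc
  /-- `X'' → ΣX` -/
  f'' : Xc ⟶ T.obj₁⟦(1 : ℤ)⟧
  distA : Triangle.mk (T.mor₁ ≫ φ.hom₂) vA wA ∈ distTriang C
  distY : Triangle.mk φ.hom₂ g' g'' ∈ distTriang C
  distX : Triangle.mk φ.hom₁ f' f'' ∈ distTriang C

/-- The condition that `φ = (f, g, h)` is Verdier good, for given auxiliary triangles `c`: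
there are an octahedron for `X → Y → Y'` (with maps `α₁, β₁, γ₁`) and an octahedron for
`X → X' → Y'` (with maps `α₂, β₂, γ₂`), with the same exact triangle on
`X → Y → Y'` (equal to `X → X' → Y'`), such that `h = β₂ ∘ α₁`. -/
def VerdierGoodFor {T T' : Triangle C} (φ : T ⟶ T') (c : Cones φ) : Prop :=
  ∃ (α₁ : T.obj₃ ⟶ c.A) (β₁ : c.A ⟶ c.Yc) (γ₁ : c.Yc ⟶ T.obj₃⟦(1 : ℤ)⟧)
    (α₂ : c.Xc ⟶ c.A) (β₂ : c.A ⟶ T'.obj₃) (γ₂ : T'.obj₃ ⟶ c.Xc⟦(1 : ℤ)⟧),
    -- the octahedron for `X → Y → Y'`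
    (Triangle.mk α₁ β₁ γ₁ ∈ distTriang C ∧
      T.mor₂ ≫ α₁ = φ.hom₂ ≫ c.vA ∧ α₁ ≫ c.wA = T.mor₃ ∧ c.vA ≫ β₁ = c.g' ∧
      γ₁ = c.g'' ≫ T.mor₂⟦(1 : ℤ)⟧' ∧ β₁ ≫ c.g'' = c.wA ≫ T.mor₁⟦(1 : ℤ)⟧') ∧
    -- the octahedron for `X → X' → Y'`
    (Triangle.mk α₂ β₂ γ₂ ∈ distTriang C ∧
      c.f' ≫ α₂ = T'.mor₁ ≫ c.vA ∧ α₂ ≫ c.wA = c.f'' ∧ c.vA ≫ β₂ = T'.mor₂ ∧
      γ₂ = T'.mor₃ ≫ c.f'⟦(1 : ℤ)⟧' ∧ β₂ ≫ T'.mor₃ = c.wA ≫ φ.hom₁⟦(1 : ℤ)⟧') ∧
    φ.hom₃ = α₁ ≫ β₂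

/-- `φ` is Verdier good. By `verdierGoodFor_iff` below the choice of the auxiliary triangles is
irrelevant. -/
def IsVerdierGood {T T' : Triangle C} (φ : T ⟶ T') : Prop :=
  ∃ c : Cones φ, VerdierGoodFor φ c

end defs

section general

variable {C : Type u} [Category.{v} C] [Preadditive C] [HasZeroObject C] [HasShift C ℤ]
  [∀ n : ℤ, (shiftFunctor C n).Additive] [Pretriangulated C]

lemma lift_aux {T T' : Triangle C} (hT' : T' ∈ distTriang C)
    (φ : T ⟶ T') (h0 : φ.hom₃ = 0) {A Yc : C} (vA : T'.obj₃ ⟶ A) (wA : A ⟶ T.obj₂⟦(1 : ℤ)⟧)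
    (distA : Triangle.mk (T.mor₂ ≫ φ.hom₃) vA wA ∈ distTriang C)
    (g' : T'.obj₃ ⟶ Yc) (g'' : Yc ⟶ T.obj₃⟦(1 : ℤ)⟧)
    (distY : Triangle.mk φ.hom₃ g' g'' ∈ distTriang C)
    (α₁ : T.obj₁⟦(1 : ℤ)⟧ ⟶ A) (β₁ : A ⟶ Yc) (β₂ : A ⟶ T'.obj₁⟦(1 : ℤ)⟧)
    (hz : α₁ ≫ β₁ = 0) (a2 : α₁ ≫ wA = -T.mor₁⟦(1 : ℤ)⟧') (a3 : vA ≫ β₁ = g')
    (b3 : vA ≫ β₂ = T'.mor₃)
    (b5 : β₂ ≫ (-T'.mor₁⟦(1 : ℤ)⟧') = wA ≫ φ.hom₂⟦(1 : ℤ)⟧')
    (hh : φ.hom₁⟦(1 : ℤ)⟧' = α₁ ≫ β₂) :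
    ∃ b : T.obj₂ ⟶ T'.obj₁, T.mor₁ ≫ b = φ.hom₁ ∧ b ≫ T'.mor₁ = φ.hom₂ := by
  rw [h0] at distA distY
  have h1 : T.mor₂ ≫ (0 : T.obj₃ ⟶ T'.obj₃) = 0 := comp_zero
  rw [h1] at distA
  -- section of `wA`
  obtain ⟨s, hs⟩ : ∃ s : T.obj₂⟦(1 : ℤ)⟧ ⟶ A, 𝟙 (T.obj₂⟦(1 : ℤ)⟧) = s ≫ wA :=
    Triangle.coyoneda_exact₁ _ distA (𝟙 (T.obj₂⟦(1 : ℤ)⟧)) (by
      change 𝟙 _ ≫ (shiftFunctor C (1 : ℤ)).map (0 : T.obj₂ ⟶ T'.obj₃) = 0
      rw [Functor.map_zero, comp_zero])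
  -- retraction of `g'`
  obtain ⟨r, hr⟩ : ∃ r : Yc ⟶ T'.obj₃, 𝟙 T'.obj₃ = g' ≫ r :=
    Triangle.yoneda_exact₂ _ distY (𝟙 T'.obj₃) zero_comp
  obtain ⟨a, ha⟩ : ∃ a : T.obj₁⟦(1 : ℤ)⟧ ⟶ T'.obj₃, α₁ + T.mor₁⟦(1 : ℤ)⟧' ≫ s = a ≫ vA :=
    Triangle.coyoneda_exact₃ _ distA (α₁ + T.mor₁⟦(1 : ℤ)⟧' ≫ s) (by
      change (α₁ + T.mor₁⟦(1 : ℤ)⟧' ≫ s) ≫ wA = 0
      rw [Preadditive.add_comp, Category.assoc, ← hs, Category.comp_id, a2]
      simp)
  have hα : α₁ = a ≫ vA - T.mor₁⟦(1 : ℤ)⟧' ≫ s := by rw [← ha]; abel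
  have hap : a = T.mor₁⟦(1 : ℤ)⟧' ≫ s ≫ β₁ ≫ r := by
    have h2 : (a ≫ vA - T.mor₁⟦(1 : ℤ)⟧' ≫ s) ≫ β₁ ≫ r = 0 := by
      rw [← hα, reassoc_of% hz, zero_comp]
    rw [Preadditive.sub_comp, sub_eq_zero, Category.assoc, reassoc_of% a3, ← hr] at h2
    simpa using h2
  let b : T.obj₂⟦(1 : ℤ)⟧ ⟶ T'.obj₁⟦(1 : ℤ)⟧ := -(s ≫ β₂) + (s ≫ β₁ ≫ r) ≫ T'.mor₃
  have hb1 : T.mor₁⟦(1 : ℤ)⟧' ≫ b = φ.hom₁⟦(1 : ℤ)⟧' := by
    rw [hh, hα, Preadditive.sub_comp, Category.assoc, Category.assoc, b3]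
    simp only [b, Preadditive.comp_add, Preadditive.comp_neg]
    rw [hap]
    simp only [Category.assoc]
    abel
  have hb2 : b ≫ T'.mor₁⟦(1 : ℤ)⟧' = φ.hom₂⟦(1 : ℤ)⟧' := by
    have h3 : T'.mor₃ ≫ T'.mor₁⟦(1 : ℤ)⟧' = 0 := comp_distTriang_mor_zero₃₁ _ hT'
    have h4 : β₂ ≫ T'.mor₁⟦(1 : ℤ)⟧' = - (wA ≫ φ.hom₂⟦(1 : ℤ)⟧') := by
      rw [← b5]; simp
    simp only [b, Preadditive.add_comp, Preadditive.neg_comp, Category.assoc, h3, comp_zero,
      add_zero, h4, Preadditive.comp_neg, neg_neg]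
    rw [← Category.assoc, ← hs, Category.id_comp]
  refine ⟨(shiftFunctor C (1 : ℤ)).preimage b, ?_, ?_⟩
  · apply (shiftFunctor C (1 : ℤ)).map_injective
    rw [Functor.map_comp, Functor.map_preimage, hb1]
  · apply (shiftFunctor C (1 : ℤ)).map_injective
    rw [Functor.map_comp, Functor.map_preimage, hb2]

/-- If the rotation of a map of triangles with zero third component is Verdier good, then the
left square has a lift. -/
lemma lift_of_rotate {T T' : Triangle C} (hT' : T' ∈ distTriang C)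
    (φ : T ⟶ T') (h0 : φ.hom₃ = 0) (hφ : IsVerdierGood ((rotate C).map φ)) :
    ∃ b : T.obj₂ ⟶ T'.obj₁, T.mor₁ ≫ b = φ.hom₁ ∧ b ≫ T'.mor₁ = φ.hom₂ := by
  obtain ⟨⟨A, Yc, Xc, vA, wA, g', g'', f', f'', distA, distY, distX⟩,
    α₁, β₁, γ₁, α₂, β₂, γ₂, ⟨d1, a1, a2, a3, a4, a5⟩, ⟨d2, b1, b2, b3, b4, b5⟩, hh⟩ := hφ
  exact lift_aux hT' φ h0 vA wA distA g' g'' distY α₁ β₁ β₂
    (comp_distTriang_mor_zero₁₂ _ d1) a2 a3 b3 b5 hh

noncomputable def eBool (X : Bool → C) : X true ⊞ X false ≅ ∏ᶜ X where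
  hom := Pi.lift (fun j => match j with | true => biprod.fst | false => biprod.snd)
  inv := biprod.lift (Pi.π X true) (Pi.π X false)
  hom_inv_id := by
    apply biprod.hom_ext <;> simp
  inv_hom_id := by
    apply Pi.hom_ext
    intro j
    cases j <;> simp

lemma eBool_true (X : Bool → C) : (eBool X).hom ≫ Pi.π X true = biprod.fst := by simp [eBool]
lemma eBool_false (X : Bool → C) : (eBool X).hom ≫ Pi.π X false = biprod.snd := by simp [eBool]

/-- direct sum of two triangles -/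
noncomputable def biTri (F : Bool → Triangle C) : Triangle C :=
  Triangle.mk (biprod.map (F true).mor₁ (F false).mor₁) (biprod.map (F true).mor₂ (F false).mor₂)
    (biprod.desc ((F true).mor₃ ≫ (biprod.inl : _ ⟶ (F true).obj₁ ⊞ (F false).obj₁)⟦(1 : ℤ)⟧')
      ((F false).mor₃ ≫ (biprod.inr : _ ⟶ (F true).obj₁ ⊞ (F false).obj₁)⟦(1 : ℤ)⟧'))

lemma biTri_dist (F : Bool → Triangle C) (hF : ∀ j, F j ∈ distTriang C) :
    biTri F ∈ distTriang C := by
  refine isomorphic_distinguished _ (productTriangle_distinguished F hF) _ ?_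
  refine Triangle.isoMk _ _ (eBool (fun j => (F j).obj₁)) (eBool (fun j => (F j).obj₂))
    (eBool (fun j => (F j).obj₃)) ?_ ?_ ?_
  · apply Pi.hom_ext
    intro j
    cases j <;> simp [biTri, eBool]
  · apply Pi.hom_ext
    intro j
    cases j <;> simp [biTri, eBool]
  · dsimp [biTri]
    rw [← cancel_mono (piComparison _ _)]
    apply Pi.hom_ext
    intro j
    simp only [Category.assoc, IsIso.inv_hom_id, Category.comp_id]
    apply biprod.hom_ext'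
    · cases j
      · simp [← Functor.map_comp, eBool]
      · simp [← Functor.map_comp, eBool]
    · cases j
      · simp [← Functor.map_comp, eBool]
      · simp [← Functor.map_comp, eBool]

open ZeroObject in
/-- `Z ≅ Z ⊞ 0` -/
noncomputable def isoZ (Z : C) : Z ≅ Z ⊞ (0 : C) where
  hom := biprod.inl
  inv := biprod.fst
  hom_inv_id := by simp
  inv_hom_id := by
    apply biprod.hom_ext
    · simp
    · exact (isZero_zero C).eq_of_tgt _ _

section constr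

variable {R Z : C} (e : R ⟶ R) (v : R ⟶ Z) (w : Z ⟶ R⟦(1 : ℤ)⟧)
  (hd : Triangle.mk e v w ∈ distTriang C) (hee : e ≫ e = 0)

/-- The triangle `R² → R² → Z → ΣR²` -/
noncomputable def SS : Triangle C :=
  Triangle.mk (biprod.map e (𝟙 R)) ((biprod.fst : R ⊞ R ⟶ R) ≫ v)
    (w ≫ (biprod.inl : R ⟶ R ⊞ R)⟦(1 : ℤ)⟧')

/-- the swap -/
noncomputable def sw (R : C) : R ⊞ R ≅ R ⊞ R where
  hom := biprod.lift biprod.snd biprod.fst
  inv := biprod.lift biprod.snd biprod.fst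
  hom_inv_id := by apply biprod.hom_ext <;> simp
  inv_hom_id := by apply biprod.hom_ext <;> simp

/-- `(y₁, y₂) ↦ (y₁ - e y₂, y₂)` -/
noncomputable def sh : R ⊞ R ≅ R ⊞ R where
  hom := biprod.lift (biprod.fst - biprod.snd ≫ e) biprod.snd
  inv := biprod.lift (biprod.fst + biprod.snd ≫ e) biprod.snd
  hom_inv_id := by apply biprod.hom_ext <;> simp
  inv_hom_id := by apply biprod.hom_ext <;> simp

/-- first component -/
noncomputable def ff : R ⊞ R ⟶ R ⊞ R := biprod.lift biprod.snd (biprod.fst ≫ e)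

/-- second component -/
noncomputable def gg : R ⊞ R ⟶ R ⊞ R :=
  biprod.lift (biprod.fst ≫ e + biprod.snd ≫ e) biprod.fst

include hd

lemma SS_dist : SS e v w ∈ distTriang C := by
  let F : Bool → Triangle C := fun j => match j with
    | true => Triangle.mk e v w
    | false => contractibleTriangle R
  refine isomorphic_distinguished _ (biTri_dist F ?_) _ ?_
  · intro j
    cases j
    · exact contractible_distinguished R
    · exact hd
  · refine Triangle.isoMk _ _ (Iso.refl _) (Iso.refl _)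
      (isoZ Z) ?_ ?_ ?_
    · simp [SS, biTri, F]
    · apply biprod.hom_ext
      · simp [SS, biTri, F, isoZ]
      · exact (isZero_zero C).eq_of_tgt _ _
    · simp [SS, biTri, F, isoZ]

lemma ff_dist : Triangle.mk (ff e) ((biprod.snd : R ⊞ R ⟶ R) ≫ v)
    (w ≫ (biprod.inl : R ⟶ R ⊞ R)⟦(1 : ℤ)⟧') ∈ distTriang C := by
  refine isomorphic_distinguished _ (SS_dist e v w hd) _ ?_
  refine Triangle.isoMk _ _ (Iso.refl _) (sw R) (Iso.refl _) ?_ ?_ ?_
  · apply biprod.hom_ext <;> simp [SS, sw, ff]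
  · simp [SS, sw]
  · simp [SS]

lemma gg_dist : Triangle.mk (gg e) ((biprod.fst : R ⊞ R ⟶ R) ≫ v)
    (w ≫ (biprod.inr : R ⟶ R ⊞ R)⟦(1 : ℤ)⟧') ∈ distTriang C := by
  have hev : e ≫ v = 0 := comp_distTriang_mor_zero₁₂ _ hd
  refine isomorphic_distinguished _ (SS_dist e v w hd) _ ?_
  refine Triangle.isoMk _ _ (sw R) (sh e) (Iso.refl _) ?_ ?_ ?_
  · apply biprod.hom_ext <;> simp [SS, sw, gg, sh]
  · simp [SS, sh, hev]
  · simp only [SS, Triangle.mk_mor₃, Iso.refl_hom, Category.id_comp, Category.assoc,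
      ← Functor.map_comp]
    congr 2
    apply biprod.hom_ext <;> simp [sw]

include hee

lemma AA_dist : Triangle.mk (biprod.map e (𝟙 R) ≫ gg e) (biprod.map v v)
    (biprod.desc (w ≫ (biprod.inr : R ⟶ R ⊞ R)⟦(1 : ℤ)⟧')
      (w ≫ (biprod.inl : R ⟶ R ⊞ R)⟦(1 : ℤ)⟧')) ∈ distTriang C := by
  let F : Bool → Triangle C := fun _ => Triangle.mk e v w
  refine isomorphic_distinguished _ (biTri_dist F (fun _ => hd)) _ ?_
  refine Triangle.isoMk _ _ (sw R) (Iso.refl _) (Iso.refl _) ?_ ?_ ?_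
  · apply biprod.hom_ext <;> simp [biTri, F, sw, gg, hee]
  · simp [biTri, F]
  · apply biprod.hom_ext'
    · simp only [biTri, F, Triangle.mk_mor₃, Iso.refl_hom, Category.id_comp,
        ← Category.assoc, biprod.inl_desc]
      rw [Category.assoc, ← Functor.map_comp]
      congr 2
      apply biprod.hom_ext <;> simp [sw]
    · simp only [biTri, F, Triangle.mk_mor₃, Iso.refl_hom, Category.id_comp,
        ← Category.assoc, biprod.inr_desc]
      rw [Category.assoc, ← Functor.map_comp]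
      congr 2
      apply biprod.hom_ext <;> simp [sw]


/-- the map of triangles `(f, g, 0)` -/
noncomputable def phi : SS e v w ⟶ SS e v w where
  hom₁ := ff e
  hom₂ := gg e
  hom₃ := 0
  comm₁ := by
    apply biprod.hom_ext <;> simp [SS, ff, gg, hee]
  comm₂ := by
    have hev : e ≫ v = 0 := comp_distTriang_mor_zero₁₂ _ hd
    simp [SS, gg, hev]
  comm₃ := by
    have hwe : w ≫ e⟦(1 : ℤ)⟧' = 0 := comp_distTriang_mor_zero₃₁ _ hd
    have h1 : (biprod.inl : R ⟶ R ⊞ R) ≫ ff e = e ≫ biprod.inr := by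
      apply biprod.hom_ext <;> simp [ff]
    simp only [SS, Triangle.mk_mor₃, zero_comp, Category.assoc, ← Functor.map_comp, h1]
    rw [Functor.map_comp, reassoc_of% hwe, zero_comp]

/-- chosen cones -/
noncomputable def phiCones : Cones (phi e v w hd hee) where
  A := Z ⊞ Z
  Yc := Z
  Xc := Z
  vA := biprod.map v v
  wA := biprod.desc (w ≫ (biprod.inr : R ⟶ R ⊞ R)⟦(1 : ℤ)⟧')
      (w ≫ (biprod.inl : R ⟶ R ⊞ R)⟦(1 : ℤ)⟧')
  g' := (biprod.fst : R ⊞ R ⟶ R) ≫ v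
  g'' := w ≫ (biprod.inr : R ⟶ R ⊞ R)⟦(1 : ℤ)⟧'
  f' := (biprod.snd : R ⊞ R ⟶ R) ≫ v
  f'' := w ≫ (biprod.inl : R ⟶ R ⊞ R)⟦(1 : ℤ)⟧'
  distA := AA_dist e v w hd hee
  distY := gg_dist e v w hd
  distX := ff_dist e v w hd

omit hd hee in
lemma split_dist (Z : C) : Triangle.mk (biprod.inr : Z ⟶ Z ⊞ Z) biprod.fst 0 ∈ distTriang C := by
  refine isomorphic_distinguished _ (binaryBiproductTriangle_distinguished Z Z) _ ?_
  refine Triangle.isoMk _ _ (Iso.refl _) (sw Z) (Iso.refl _) ?_ ?_ ?_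
  · apply biprod.hom_ext <;> simp [sw]
  · simp [sw]
  · simp

lemma phi_good : VerdierGoodFor (phi e v w hd hee) (phiCones e v w hd hee) := by
  have hev : e ≫ v = 0 := comp_distTriang_mor_zero₁₂ _ hd
  have hwe : w ≫ e⟦(1 : ℤ)⟧' = 0 := comp_distTriang_mor_zero₃₁ _ hd
  have i1 : (biprod.inl : R ⟶ R ⊞ R) ≫ ff e = e ≫ biprod.inr := by
    apply biprod.hom_ext <;> simp [ff]
  have i2 : (biprod.inr : R ⟶ R ⊞ R) ≫ ff e = biprod.inl := by
    apply biprod.hom_ext <;> simp [ff]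
  have i3 : (biprod.inl : R ⟶ R ⊞ R) ≫ biprod.map e (𝟙 R) = e ≫ biprod.inl := by
    apply biprod.hom_ext <;> simp
  have i4 : (biprod.inr : R ⟶ R ⊞ R) ≫ biprod.map e (𝟙 R) = biprod.inr := by
    apply biprod.hom_ext <;> simp
  have i5 : (biprod.inr : R ⟶ R ⊞ R) ≫ (biprod.fst : R ⊞ R ⟶ R) ≫ v = 0 := by simp
  have i6 : (biprod.inl : R ⟶ R ⊞ R) ≫ (biprod.snd : R ⊞ R ⟶ R) ≫ v = 0 := by simp
  refine ⟨biprod.inr, biprod.fst, 0, biprod.inr, biprod.fst, 0,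
    ⟨split_dist Z, ?_, ?_, ?_, ?_, ?_⟩, ⟨split_dist Z, ?_, ?_, ?_, ?_, ?_⟩, ?_⟩
  · apply biprod.hom_ext <;> simp [SS, phi, phiCones, gg, hev]
  · simp [SS, phiCones]
  · simp [phiCones]
  · simp only [phiCones, SS, Triangle.mk_mor₂, Category.assoc, ← Functor.map_comp]
    rw [i5, Functor.map_zero, comp_zero]
  · simp only [phiCones, SS, Triangle.mk_mor₁]
    apply biprod.hom_ext'
    · simp only [biprod.inl_fst_assoc, biprod.inl_desc_assoc, Category.assoc, ← Functor.map_comp,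
        i4]
    · simp only [biprod.inr_fst_assoc, biprod.inr_desc_assoc, Category.assoc, ← Functor.map_comp,
        i3, zero_comp]
      rw [Functor.map_comp, reassoc_of% hwe, zero_comp]
  · apply biprod.hom_ext <;> simp [SS, phiCones, hev]
  · simp [phiCones]
  · simp [SS, phiCones]
  · simp only [phiCones, SS, Triangle.mk_mor₃, Category.assoc, ← Functor.map_comp]
    rw [i6, Functor.map_zero, comp_zero]
  · simp only [phiCones, SS, phi, Triangle.mk_mor₃]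
    apply biprod.hom_ext'
    · simp only [biprod.inl_fst_assoc, biprod.inl_desc_assoc, Category.assoc, ← Functor.map_comp,
        i2]
    · simp only [biprod.inr_fst_assoc, biprod.inr_desc_assoc, Category.assoc, ← Functor.map_comp,
        i1, zero_comp]
      rw [Functor.map_comp, reassoc_of% hwe, zero_comp]
  · exact biprod.inr_fst.symm

/-- No lift in the left square. -/
lemma phi_no_lift (hb : ¬ ∃ b : R ⟶ R, e ≫ b = 0 ∧ b ≫ e = e) :
    ¬ IsVerdierGood ((rotate C).map (phi e v w hd hee)) := by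
  intro h
  obtain ⟨b, h1, h2⟩ := lift_of_rotate (SS_dist e v w hd) (phi e v w hd hee) rfl h
  apply hb
  simp only [SS, phi, Triangle.mk_mor₁] at h1 h2
  refine ⟨biprod.inl ≫ b ≫ biprod.fst, ?_, ?_⟩
  · have h3 : (biprod.inl : R ⟶ R ⊞ R) ≫ biprod.map e (𝟙 R) ≫ b ≫ biprod.fst =
        biprod.inl ≫ ff e ≫ biprod.fst := by
      rw [reassoc_of% h1]
    simpa [ff] using h3
  · have h3 : (biprod.inl : R ⟶ R ⊞ R) ≫ (b ≫ biprod.map e (𝟙 R)) ≫ biprod.fst =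
        biprod.inl ≫ gg e ≫ biprod.fst := by
      rw [h2]
    simpa [gg] using h3

end constr

/-- In every triangulated category with an object `R` and an integer `n` such that
`n² • 𝟙 R = 0` and `n • 𝟙 R ≠ 0`, there is a Verdier good map of exact triangles whose rotation is
not Verdier good. -/
theorem of_object (R : C) (n : ℤ) (h1 : (n * n) • 𝟙 R = 0) (h2 : n • 𝟙 R ≠ 0) :
    ∃ T ∈ distTriang C, ∃ T' ∈ distTriang C, ∃ φ : T ⟶ T',
      IsVerdierGood φ ∧ ¬ IsVerdierGood ((rotate C).map φ) := by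
  obtain ⟨Z, v, w, hd⟩ := distinguished_cocone_triangle (n • 𝟙 R)
  have hee : (n • 𝟙 R) ≫ (n • 𝟙 R) = 0 := by
    rw [Preadditive.zsmul_comp, Preadditive.comp_zsmul, Category.comp_id, smul_smul, h1]
  refine ⟨_, SS_dist _ v w hd, _, SS_dist _ v w hd, phi _ v w hd hee,
    ⟨_, phi_good _ v w hd hee⟩, phi_no_lift _ v w hd hee ?_⟩
  rintro ⟨b, hb1, hb2⟩
  apply h2
  rw [Preadditive.zsmul_comp, Category.id_comp] at hb1
  rw [Preadditive.comp_zsmul, Category.comp_id, hb1] at hb2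
  exact hb2.symm

/-- The choice of the auxiliary triangles is irrelevant. -/
theorem verdierGoodFor_iff {T T' : Triangle C} (φ : T ⟶ T') (c c' : Cones φ) :
    VerdierGoodFor φ c ↔ VerdierGoodFor φ c' := by
  suffices H : ∀ c c' : Cones φ, VerdierGoodFor φ c → VerdierGoodFor φ c' from
    ⟨H c c', H c' c⟩
  clear c c'
  rintro ⟨A, Yc, Xc, vA, wA, g', g'', f', f'', distA, distY, distX⟩
    ⟨A₁, Yc₁, Xc₁, vA₁, wA₁, g₁', g₁'', f₁', f₁'', distA₁, distY₁, distX₁⟩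
    ⟨α₁, β₁, γ₁, α₂, β₂, γ₂, ⟨d1, a1, a2, a3, a4, a5⟩, ⟨d2, b1, b2, b3, b4, b5⟩, hh⟩
  obtain ⟨eA, eA1, eA2⟩ : ∃ eA : A ≅ A₁, vA ≫ eA.hom = vA₁ ∧ eA.hom ≫ wA₁ = wA := by
    let E := isoTriangleOfIso₁₂ _ _ distA distA₁ (Iso.refl _) (Iso.refl _) (by simp)
    refine ⟨Triangle.π₃.mapIso E, ?_, ?_⟩
    · simpa [E] using E.hom.comm₂
    · simpa [E] using E.hom.comm₃.symm
  obtain ⟨eY, eY1, eY2⟩ : ∃ eY : Yc ≅ Yc₁, g' ≫ eY.hom = g₁' ∧ eY.hom ≫ g₁'' = g'' := by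
    let E := isoTriangleOfIso₁₂ _ _ distY distY₁ (Iso.refl _) (Iso.refl _) (by simp)
    refine ⟨Triangle.π₃.mapIso E, ?_, ?_⟩
    · simpa [E] using E.hom.comm₂
    · simpa [E] using E.hom.comm₃.symm
  obtain ⟨eX, eX1, eX2⟩ : ∃ eX : Xc ≅ Xc₁, f' ≫ eX.hom = f₁' ∧ eX.hom ≫ f₁'' = f'' := by
    let E := isoTriangleOfIso₁₂ _ _ distX distX₁ (Iso.refl _) (Iso.refl _) (by simp)
    refine ⟨Triangle.π₃.mapIso E, ?_, ?_⟩
    · simpa [E] using E.hom.comm₂
    · simpa [E] using E.hom.comm₃.symm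
  subst eA1 eA2 eY1 eY2 eX1 eX2
  dsimp only at a1 a2 a3 a4 a5 b1 b2 b3 b4 b5 hh α₁ β₁ γ₁ α₂ β₂ γ₂
  refine ⟨α₁ ≫ eA.hom, eA.inv ≫ β₁ ≫ eY.hom, eY.inv ≫ γ₁, eX.inv ≫ α₂ ≫ eA.hom,
    eA.inv ≫ β₂, γ₂ ≫ eX.hom⟦(1 : ℤ)⟧', ⟨?_, ?_, ?_, ?_, ?_, ?_⟩, ⟨?_, ?_, ?_, ?_, ?_, ?_⟩, ?_⟩
  · refine isomorphic_distinguished _ d1 _ (Triangle.isoMk _ _ (Iso.refl _) eA.symm eY.symm
      ?_ ?_ ?_) <;> simp
  · simp [reassoc_of% a1]
  · simpa using a2
  · simp [reassoc_of% a3]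
  · simp [a4]
  · rw [Category.assoc, Category.assoc, a5]; simp
  · refine isomorphic_distinguished _ d2 _ (Triangle.isoMk _ _ eX.symm eA.symm (Iso.refl _)
      ?_ ?_ ?_)
    · simp
    · simp
    · simp [← Functor.map_comp]
  · simp [reassoc_of% b1]
  · simp [b2]
  · simp [b3]
  · simp [b4]
  · simp [b5]
  · simp [hh]

end general

/-- the homotopy category of cochain complexes of abelian groups -/
abbrev KAb := HomotopyCategory (ModuleCat.{0} ℤ) (ComplexShape.up ℤ)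

/-- **Main theorem.** In the triangulated category of cochain complexes of abelian groups up to
homotopy there is a map `φ` of exact triangles which is Verdier good, while its rotation is not
Verdier good. -/
theorem result :
    IsTriangulated KAb ∧
    ∃ T ∈ distTriang KAb, ∃ T' ∈ distTriang KAb, ∃ φ : T ⟶ T',
      IsVerdierGood φ ∧ ¬ IsVerdierGood ((rotate KAb).map φ) := by
  refine ⟨inferInstance, ?_⟩
  let M : ModuleCat.{0} ℤ := ModuleCat.of ℤ (ZMod 4)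
  let X : CochainComplex (ModuleCat.{0} ℤ) ℤ := (HomologicalComplex.single _ _ 0).obj M
  have h4 : (4 : ℤ) • 𝟙 M = 0 := by
    have key : ∀ x : ZMod 4, (4 : ℤ) • x = 0 := by decide
    apply ModuleCat.hom_ext
    apply LinearMap.ext
    intro x
    exact key x
  have h2 : (2 : ℤ) • 𝟙 M ≠ 0 := by
    intro h
    have := congrArg (fun f => (f.hom (1 : ZMod 4) : ZMod 4)) h
    change (2 : ℤ) • (1 : ZMod 4) = 0 at this
    revert this
    decide
  refine of_object ((HomotopyCategory.quotient _ _).obj X) 2 ?_ ?_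
  · have h5 : (4 : ℤ) • 𝟙 X = 0 := by
      have := congrArg (fun f => (HomologicalComplex.single (ModuleCat.{0} ℤ) (ComplexShape.up ℤ) 0).map f) h4
      simpa [Functor.map_zsmul] using this
    have := congrArg (fun f => (HomotopyCategory.quotient (ModuleCat.{0} ℤ) (ComplexShape.up ℤ)).map f) h5
    simpa [Functor.map_zsmul] using this
  · intro h
    have h6 : (HomotopyCategory.quotient (ModuleCat.{0} ℤ) (ComplexShape.up ℤ)).map
        ((2 : ℤ) • 𝟙 X) = (HomotopyCategory.quotient (ModuleCat.{0} ℤ) (ComplexShape.up ℤ)).map 0 := by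
      simpa [Functor.map_zsmul] using h
    have h7 := HomotopyCategory.homotopyOfEq _ _ h6
    have h8 := h7.comm 0
    rw [dNext_eq h7.hom (show (ComplexShape.up ℤ).Rel 0 1 by simp),
      prevD_eq h7.hom (show (ComplexShape.up ℤ).Rel (-1) 0 by simp)] at h8
    have hd0 : ∀ i j, X.d i j = 0 := fun i j => rfl
    rw [hd0, hd0] at h8
    have h9 : (2 : ℤ) • 𝟙 (X.X 0) = 0 := by simpa using h8
    let E : X.X 0 ≅ M := HomologicalComplex.singleObjXSelf (ComplexShape.up ℤ) 0 M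
    apply h2
    calc (2 : ℤ) • 𝟙 M = E.inv ≫ ((2 : ℤ) • 𝟙 (X.X 0)) ≫ E.hom := by
          rw [Preadditive.zsmul_comp, Preadditive.comp_zsmul, Category.id_comp, E.inv_hom_id]
      _ = 0 := by rw [h9, zero_comp, comp_zero]

end Pool.Agent.Results.MP_76bba9_al.NotRotationInvariant
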